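import Mathlib
import Pool.Agent.Y245.SC.Stm

set_option autoImplicit false

open Complex Metric Set Filter Topology

namespace Pool.Agent.Y769.SC

open Pool.Agent.Y245.SC

private lemma term_le (a : ℝ) (ha : 0 ≤ a) (x : ℂ) (k : ℕ) :
    ‖(-(a : ℂ)) ^ (k + 1) * x ^ k / ((k.factorial : ℂ) * ((k + 2).factorial : ℂ))‖ ≤
      a * ((a * ‖x‖) ^ k / (k.factorial : ℝ)) := by
  rw [norm_div, norm_mul, norm_pow, norm_neg, norm_pow, norm_mul, Complex.norm_natCast,
    Complex.norm_natCast, Complex.norm_real, Real.norm_eq_abs, abs_of_nonneg ha]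
  have h1 : (0 : ℝ) < (k.factorial : ℝ) := by exact_mod_cast Nat.factorial_pos k
  have h2 : (1 : ℝ) ≤ ((k + 2).factorial : ℝ) := by exact_mod_cast Nat.factorial_pos (k + 2)
  have h3 : a * ((a * ‖x‖) ^ k / (k.factorial : ℝ)) = a ^ (k + 1) * ‖x‖ ^ k / (k.factorial : ℝ) := by
    rw [mul_pow, pow_succ]; ring
  rw [h3]
  apply div_le_div_of_nonneg_left (by positivity) h1
  nlinarith

private lemma summ (a : ℝ) (x : ℝ) :
    HasSum (fun k : ℕ => a * ((a * x) ^ k / (k.factorial : ℝ))) (a * Real.exp (a * x)) := by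
  apply HasSum.mul_left
  rw [Real.exp_eq_exp_ℝ]
  exact NormedSpace.expSeries_div_hasSum_exp (a * x)

theorem kap : S_KAP := by
  intro a ha
  have hs : ∀ x : ℂ, HasSum (fun k : ℕ =>
      (-(a : ℂ)) ^ (k + 1) * x ^ k / ((k.factorial : ℂ) * ((k + 2).factorial : ℂ)))
      (Pool.Agent.Y245.SC.kap a x) := fun x =>
    (Summable.of_norm_bounded (summ a ‖x‖).summable (term_le a ha x)).hasSum
  refine ⟨?_, ?_, hs⟩
  · intro x
    have h : DifferentiableOn ℂ (fun x : ℂ => ∑' k : ℕ,
        (-(a : ℂ)) ^ (k + 1) * x ^ k / ((k.factorial : ℂ) * ((k + 2).factorial : ℂ)))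
        (ball 0 (‖x‖ + 1)) := by
      apply differentiableOn_tsum_of_summable_norm (summ a (‖x‖ + 1)).summable
      · intro k
        fun_prop
      · exact isOpen_ball
      · intro k w hw
        refine (term_le a ha w k).trans ?_
        have hw' : ‖w‖ ≤ ‖x‖ + 1 := by
          rw [mem_ball, dist_zero_right] at hw; exact hw.le
        gcongr
    exact (h.differentiableAt (isOpen_ball.mem_nhds (by simp)))
  · intro x
    exact tsum_of_norm_bounded (summ a ‖x‖) (term_le a ha x)

end Pool.Agent.Y769.SC
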