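import Mathlib
import Pool.Agent.Y245.SC.Stm
import Pool.Agent.Helper523.LL.Univ

set_option autoImplicit false

open Complex Metric Set

namespace Pool.Agent.Y769.SC

theorem nz : Pool.Agent.Y245.SC.S_NZ := fun _ _ hd hi _ hw =>
  Pool.Agent.Helper523.LL.deriv_ne_zero_of_injOn isOpen_ball hd hi hw

end Pool.Agent.Y769.SC
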