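import Mathlib
import Pool.Agent.Y245.SC.Stm

set_option autoImplicit false

open Complex Metric Set Filter Topology MeasureTheory
open scoped Interval

namespace Pool.Agent.Y769.SC

open Pool.Agent.Y245.SC

theorem par : S_PAR := by
  intro U g hU hc hd z0 hz0
  obtain ⟨e', he', hb'⟩ := Metric.isOpen_iff.1 hU z0 hz0
  obtain ⟨e, he, hball⟩ : ∃ e : ℝ, 0 < e ∧ closedBall z0 (2 * e) ⊆ U :=
    ⟨e' / 4, by positivity, fun w hw => hb' (by
      rw [mem_closedBall] at hw; rw [mem_ball]; linarith)⟩
  have hcomp : IsCompact (closedBall z0 (2 * e) ×ˢ Icc (0 : ℝ) 1) :=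
    (isCompact_closedBall _ _).prod isCompact_Icc
  obtain ⟨B, hB⟩ := hcomp.exists_bound_of_continuousOn (hc.mono (prod_mono hball le_rfl))
  have hsub : ∀ z ∈ ball z0 e, closedBall z e ⊆ closedBall z0 (2 * e) := by
    intro z hz w hw
    rw [mem_ball] at hz
    rw [mem_closedBall] at hw ⊢
    linarith [dist_triangle w z z0]
  have hder : ∀ t ∈ Icc (0 : ℝ) 1, ∀ z ∈ ball z0 e, ‖deriv (fun z => g z t) z‖ ≤ B / e := by
    intro t ht z hz
    apply Complex.norm_deriv_le_of_forall_mem_sphere_norm_le he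
    · apply DifferentiableOn.diffContOnCl
      rw [closure_ball z he.ne']
      exact (hd t ht).mono ((hsub z hz).trans hball)
    · intro w hw
      exact hB (w, t) ⟨hsub z hz (sphere_subset_closedBall hw), ht⟩
  have hz0b : z0 ∈ ball z0 e := mem_ball_self he
  have hIoc : Ι (0 : ℝ) 1 = Ioc 0 1 := uIoc_of_le zero_le_one
  have hcont : ∀ z ∈ U, ContinuousOn (fun t => g z t) (Icc (0 : ℝ) 1) := by
    intro z hz
    exact hc.comp (continuousOn_const.prodMk continuousOn_id) (fun t ht => ⟨hz, ht⟩)
  have hmeas : ∀ z ∈ U, AEStronglyMeasurable (g z) (volume.restrict (Ι (0 : ℝ) 1)) := by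
    intro z hz
    rw [hIoc]
    exact ((hcont z hz).mono Ioc_subset_Icc_self).aestronglyMeasurable measurableSet_Ioc
  have hU0 : ∀ z ∈ ball z0 e, z ∈ U := fun z hz =>
    hball (hsub z hz (mem_closedBall_self he.le))
  have key := intervalIntegral.hasDerivAt_integral_of_dominated_loc_of_deriv_le
    (μ := volume) (a := (0 : ℝ)) (b := 1) (F := g) (F' := fun z t => deriv (fun z => g z t) z)
    (x₀ := z0) (s := ball z0 e) (bound := fun _ => B / e) (ball_mem_nhds z0 he)
    (by
      filter_upwards [ball_mem_nhds z0 he] with z hz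
      exact hmeas z (hU0 z hz))
    ((hcont z0 hz0).intervalIntegrable_of_Icc zero_le_one)
    (by
      -- measurability of the derivative
      have hn : Tendsto (fun n : ℕ => ((1 / ((n : ℝ) + 1) : ℝ) : ℂ)) atTop (𝓝[≠] 0) := by
        rw [tendsto_nhdsWithin_iff]
        constructor
        · have := tendsto_one_div_add_atTop_nhds_zero_nat (𝕜 := ℝ)
          have h2 := (Complex.continuous_ofReal.tendsto 0).comp this
          rw [Complex.ofReal_zero] at h2
          exact h2
        · filter_upwards with n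
          simp only [mem_compl_iff, mem_singleton_iff]
          intro h
          have : (1 / ((n : ℝ) + 1) : ℝ) = 0 := by exact_mod_cast h
          have h3 : (0 : ℝ) < 1 / ((n : ℝ) + 1) := by positivity
          linarith
      have hev : ∀ᶠ n : ℕ in atTop, z0 + ((1 / ((n : ℝ) + 1) : ℝ) : ℂ) ∈ ball z0 e := by
        have h1 : Tendsto (fun n : ℕ => z0 + ((1 / ((n : ℝ) + 1) : ℝ) : ℂ)) atTop (𝓝 (z0 + 0)) :=
          tendsto_const_nhds.add (hn.mono_right nhdsWithin_le_nhds)
        rw [add_zero] at h1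
        exact h1.eventually (ball_mem_nhds z0 he)
      obtain ⟨N, hN⟩ := eventually_atTop.1 hev
      refine aestronglyMeasurable_of_tendsto_ae atTop (f := fun (n : ℕ) (t : ℝ) =>
        ((1 / (((n + N : ℕ) : ℝ) + 1) : ℝ) : ℂ)⁻¹ • (g (z0 + ((1 / (((n + N : ℕ) : ℝ) + 1) : ℝ) : ℂ)) t - g z0 t))
        (fun n => ?_) ?_
      · exact ((hmeas _ (hU0 _ (hN (n + N) (Nat.le_add_left N n)))).sub (hmeas z0 hz0)).const_smul
          ((((1 / (((n + N : ℕ) : ℝ) + 1) : ℝ) : ℂ))⁻¹)
      · rw [hIoc]
        filter_upwards [ae_restrict_mem measurableSet_Ioc] with t ht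
        have h1 : HasDerivAt (fun z => g z t) (deriv (fun z => g z t) z0) z0 :=
          ((hd t (Ioc_subset_Icc_self ht)).differentiableAt (hU.mem_nhds hz0)).hasDerivAt
        have h2 := hasDerivAt_iff_tendsto_slope_zero.1 h1
        have h3 := h2.comp (hn.comp (tendsto_add_atTop_nat N))
        exact h3)
    (by
      filter_upwards with t ht z hz
      rw [hIoc] at ht
      exact hder t (Ioc_subset_Icc_self ht) z hz)
    (by simp)
    (by
      filter_upwards with t ht z hz
      rw [hIoc] at ht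
      exact ((hd t (Ioc_subset_Icc_self ht)).differentiableAt
        (hU.mem_nhds (hU0 z hz))).hasDerivAt)
  exact key.2.differentiableAt.differentiableWithinAt

end Pool.Agent.Y769.SC
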